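import Mathlib

set_option autoImplicit false

namespace Pool.Agent.UDim

/-- The right uniform dimension (Goldie dimension) of a ring `R`, as an element of `ℕ∞`:
the supremum of all natural numbers `n` such that `R` contains `n` nonzero right ideals whose sum
is direct.  Right ideals are `Rᵐᵒᵖ`-submodules of `R`. -/
noncomputable def rightUDim (R : Type*) [Ring R] : ℕ∞ :=
  ⨆ (n : ℕ) (_ : ∃ I : Fin n → Submodule Rᵐᵒᵖ R, (∀ i, I i ≠ ⊥) ∧ iSupIndep I), (n : ℕ∞)

/-- Amenability of a discrete group: existence of a left-invariant finitely additive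
probability measure defined on all subsets. -/
def IsAmenable (G : Type*) [Group G] : Prop :=
  ∃ μ : Set G → ℝ, (∀ A, 0 ≤ μ A) ∧ μ Set.univ = 1 ∧
    (∀ A B, Disjoint A B → μ (A ∪ B) = μ A + μ B) ∧
    ∀ (g : G) (A : Set G), μ ((fun x => g * x) '' A) = μ A

end Pool.Agent.UDim
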