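import Mathlib
import Pool.Agent.UDim.Defs

set_option autoImplicit false

namespace Pool.Agent.UDim

open scoped Classical in
/-- Følner condition (for left multiplication), in terms of finite sets. -/
def HasFolner (G : Type*) [Group G] : Prop :=
  ∀ (S : Finset G) (ε : ℝ), 0 < ε → ∃ F : Finset G, F.Nonempty ∧
    ∀ g ∈ S, (((F.filter (fun x => g * x ∉ F)).card : ℕ) : ℝ) ≤ ε * F.card

/-- Commutative groups satisfy the Følner condition. -/
theorem hasFolner_comm (A : Type*) [CommGroup A] : HasFolner A := by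
  classical
  intro S ε hε
  -- boxes
  let Φ : (S → ℕ) → A := fun n => ∏ s : S, (s : A) ^ (n s)
  let B : ℕ → Finset A := fun M => (Fintype.piFinset (fun _ : S => Finset.range (M + 1))).image Φ
  have hBcard : ∀ M, (B M).card ≤ (M + 1) ^ S.card := by
    intro M
    refine (Finset.card_image_le).trans ?_
    rw [Fintype.card_piFinset]
    simp
  have hBpos : ∀ M, 1 ≤ (B M).card := by
    intro M
    rw [Nat.one_le_iff_ne_zero, Finset.card_ne_zero]
    refine ⟨Φ 0, Finset.mem_image_of_mem _ ?_⟩
    simp
  have hBmono : ∀ M, B M ⊆ B (M + 1) := by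
    intro M
    refine Finset.image_subset_image ?_
    intro n hn
    rw [Fintype.mem_piFinset] at hn ⊢
    intro s
    have := hn s
    rw [Finset.mem_range] at this ⊢
    omega
  have hBmul : ∀ M, ∀ g ∈ S, ∀ x ∈ B M, g * x ∈ B (M + 1) := by
    intro M g hg x hx
    obtain ⟨n, hn, rfl⟩ := Finset.mem_image.1 hx
    refine Finset.mem_image.2 ⟨n + Pi.single ⟨g, hg⟩ 1, ?_, ?_⟩
    · rw [Fintype.mem_piFinset] at hn ⊢
      intro s
      have h1 := hn s
      rw [Finset.mem_range] at h1 ⊢
      have h2 : (Pi.single (⟨g, hg⟩ : S) 1 : S → ℕ) s ≤ 1 := by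
        by_cases h : s = ⟨g, hg⟩
        · subst h; simp
        · rw [Pi.single_eq_of_ne h]; exact Nat.zero_le _
      rw [Pi.add_apply]
      omega
    · simp only [Φ, Pi.add_apply, pow_add, Finset.prod_mul_distrib]
      rw [mul_comm]
      congr 1
      rw [Finset.prod_eq_single (⟨g, hg⟩ : S)]
      · simp
      · intro b _ hb
        rw [Pi.single_eq_of_ne hb, pow_zero]
      · simp
  -- pigeonhole
  have hex : ∃ M, ((B (M + 1)).card : ℝ) ≤ (1 + ε) * (B M).card := by
    by_contra hcon
    push Not at hcon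
    have hgrow : ∀ M, (1 + ε) ^ M ≤ ((B M).card : ℝ) := by
      intro M
      induction M with
      | zero => simpa using (by exact_mod_cast hBpos 0 : (1 : ℝ) ≤ ((B 0).card : ℝ))
      | succ M ih =>
        rw [pow_succ']
        calc (1 + ε) * (1 + ε) ^ M ≤ (1 + ε) * (B M).card := by
              apply mul_le_mul_of_nonneg_left ih; linarith
          _ ≤ _ := (hcon M).le
    have hpoly : ∀ M : ℕ, (1 + ε) ^ M ≤ ((M : ℝ) + 1) ^ S.card := by
      intro M
      refine (hgrow M).trans ?_
      exact_mod_cast hBcard M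
    -- contradiction
    have hlim := tendsto_pow_const_div_const_pow_of_one_lt S.card (r := 1 + ε) (by linarith)
    have h2 : Filter.Tendsto (fun n : ℕ => (((n + 1 : ℕ) : ℝ)) ^ S.card / (1 + ε) ^ (n + 1))
        Filter.atTop (nhds 0) := (Filter.tendsto_add_atTop_iff_nat 1).2 hlim
    have h3 : ∀ n : ℕ, 1 / (1 + ε) ≤ (((n + 1 : ℕ) : ℝ)) ^ S.card / (1 + ε) ^ (n + 1) := by
      intro n
      have hp : (0 : ℝ) < (1 + ε) ^ n := by positivity
      rw [pow_succ, ← div_div, ]
      apply div_le_div_of_nonneg_right _ (by positivity)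
      rw [le_div_iff₀ hp, one_mul]
      have := hpoly n
      push_cast
      exact this
    have h4 := ge_of_tendsto' h2 h3
    have h5 : (0 : ℝ) < 1 / (1 + ε) := by positivity
    linarith
  obtain ⟨M, hM⟩ := hex
  refine ⟨B M, ?_, ?_⟩
  · rw [← Finset.card_pos]; exact hBpos M
  · intro g hg
    have hinj : ((B M).filter (fun x => g * x ∉ B M)).card ≤ (B (M + 1) \ B M).card := by
      refine Finset.card_le_card_of_injOn (fun x => g * x) ?_ ?_
      · intro x hx
        rw [Finset.mem_coe, Finset.mem_filter] at hx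
        rw [Finset.mem_coe, Finset.mem_sdiff]
        exact ⟨hBmul M g hg x hx.1, hx.2⟩
      · intro x _ y _ hxy
        exact mul_left_cancel hxy
    have hsd : (B (M + 1) \ B M).card + (B M).card = (B (M + 1)).card :=
      Finset.card_sdiff_add_card_eq_card (hBmono M)
    have h1 : (((B (M + 1) \ B M).card : ℕ) : ℝ) + ((B M).card : ℝ) = ((B (M + 1)).card : ℝ) := by
      exact_mod_cast hsd
    have h2 : ((((B M).filter (fun x => g * x ∉ B M)).card : ℕ) : ℝ)
        ≤ (((B (M + 1) \ B M).card : ℕ) : ℝ) := by exact_mod_cast hinj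
    nlinarith

/-- The Følner condition is closed under extensions. -/
theorem hasFolner_ext {N G Q : Type*} [Group N] [Group G] [Group Q] (i : N →* G) (π : G →* Q)
    (hi : Function.Injective i) (hπ : Function.Surjective π) (hex : ∀ g, π g = 1 → ∃ n, i n = g)
    (hiπ : ∀ n, π (i n) = 1)
    (hN : HasFolner N) (hQ : HasFolner Q) : HasFolner G := by
  classical
  intro S ε hε
  obtain ⟨E, hEne, hE⟩ := hQ (S.image π) (ε / 2) (by linarith)
  -- a section
  let σ : Q → G := fun q => (hπ q).choose
  have hσ : ∀ q, π (σ q) = q := fun q => (hπ q).choose_spec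
  -- the cocycle
  have hc : ∀ (g : G) (q : Q), ∃ n : N, i n = (σ (π g * q))⁻¹ * (g * σ q) := by
    intro g q
    apply hex
    rw [map_mul, map_inv, map_mul, hσ, hσ, inv_mul_cancel]
  choose c hc using hc
  obtain ⟨K, hKne, hK⟩ := hN ((S ×ˢ E).image (fun x => c x.1 x.2)) (ε / 2) (by linarith)
  let Ψ : Q × N → G := fun x => σ x.1 * i x.2
  have hΨ : Function.Injective Ψ := by
    rintro ⟨q, n⟩ ⟨q', n'⟩ h
    have h1 : π (Ψ (q, n)) = π (Ψ (q', n')) := congrArg π h
    simp only [Ψ, map_mul, hσ, hiπ, mul_one] at h1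
    subst h1
    have h2 : i n = i n' := mul_left_cancel h
    rw [hi h2]
  refine ⟨(E ×ˢ K).image Ψ, (hEne.product hKne).image _, ?_⟩
  intro g hg
  rw [Finset.card_image_of_injective _ hΨ, Finset.card_product]
  have hmulΨ : ∀ q n, g * Ψ (q, n) = Ψ (π g * q, c g q * n) := by
    intro q n
    simp only [Ψ, map_mul, hc]
    group
  have hmem : ∀ q n, Ψ (q, n) ∈ (E ×ˢ K).image Ψ ↔ q ∈ E ∧ n ∈ K := by
    intro q n
    rw [Function.Injective.mem_finset_image hΨ, Finset.mem_product]
  -- bound the bad set
  have hsub : ((E ×ˢ K).image Ψ).filter (fun x => g * x ∉ (E ×ˢ K).image Ψ) ⊆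
      (((E.filter (fun q => π g * q ∉ E)) ×ˢ K) ∪
        E.biUnion (fun q => {q} ×ˢ (K.filter (fun n => c g q * n ∉ K)))).image Ψ := by
    intro x hx
    rw [Finset.mem_filter] at hx
    obtain ⟨hx1, hx2⟩ := hx
    obtain ⟨⟨q, n⟩, hqn, rfl⟩ := Finset.mem_image.1 hx1
    rw [Finset.mem_product] at hqn
    rw [hmulΨ, hmem] at hx2
    refine Finset.mem_image_of_mem _ ?_
    rw [Finset.mem_union]
    by_cases h : π g * q ∈ E
    · right
      rw [Finset.mem_biUnion]
      refine ⟨q, hqn.1, ?_⟩
      rw [Finset.mem_product]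
      refine ⟨Finset.mem_singleton_self _, ?_⟩
      rw [Finset.mem_filter]
      exact ⟨hqn.2, fun h' => hx2 ⟨h, h'⟩⟩
    · left
      rw [Finset.mem_product, Finset.mem_filter]
      exact ⟨⟨hqn.1, h⟩, hqn.2⟩
  have hcard := (Finset.card_le_card hsub).trans Finset.card_image_le
  have hcard2 := hcard.trans (Finset.card_union_le _ _)
  have hcard3 : (E.biUnion (fun q => ({q} : Finset Q) ×ˢ
      (K.filter (fun n => c g q * n ∉ K)))).card ≤
      ∑ q ∈ E, (K.filter (fun n => c g q * n ∉ K)).card := by
    refine Finset.card_biUnion_le.trans ?_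
    refine Finset.sum_le_sum ?_
    intro q _
    rw [Finset.card_product, Finset.card_singleton, one_mul]
  have h1 : (((E.filter (fun q => π g * q ∉ E)).card : ℕ) : ℝ) ≤ ε / 2 * E.card :=
    hE _ (Finset.mem_image_of_mem _ hg)
  have h2 : ∀ q ∈ E, (((K.filter (fun n => c g q * n ∉ K)).card : ℕ) : ℝ) ≤ ε / 2 * K.card := by
    intro q hq
    refine hK _ (Finset.mem_image.2 ⟨(g, q), ?_, rfl⟩)
    rw [Finset.mem_product]
    exact ⟨hg, hq⟩
  have h3 : (((∑ q ∈ E, (K.filter (fun n => c g q * n ∉ K)).card) : ℕ) : ℝ)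
      ≤ E.card * (ε / 2 * K.card) := by
    push_cast
    refine (Finset.sum_le_sum h2).trans ?_
    rw [Finset.sum_const, nsmul_eq_mul]
  have h4 : ((((E ×ˢ K).image Ψ).filter (fun x => g * x ∉ (E ×ˢ K).image Ψ)).card : ℝ) ≤
      ((E.filter (fun q => π g * q ∉ E)).card : ℝ) * K.card +
      ((∑ q ∈ E, (K.filter (fun n => c g q * n ∉ K)).card : ℕ) : ℝ) := by
    have := hcard2.trans (Nat.add_le_add_left hcard3 _)
    rw [Finset.card_product] at this
    exact_mod_cast this
  have hKpos : (0 : ℝ) ≤ K.card := Nat.cast_nonneg _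
  have h5 : ((E.filter (fun q => π g * q ∉ E)).card : ℝ) * K.card ≤ ε / 2 * E.card * K.card :=
    mul_le_mul_of_nonneg_right h1 hKpos
  push_cast
  calc _ ≤ _ := h4
    _ ≤ ε / 2 * E.card * K.card + E.card * (ε / 2 * K.card) := add_le_add h5 h3
    _ = ε * (E.card * K.card) := by ring

/-- Groups satisfying the Følner condition are amenable. -/
theorem isAmenable_of_hasFolner {G : Type*} [Group G] (h : HasFolner G) : IsAmenable G := by
  classical
  -- choose Følner sets
  have h' : ∀ x : Finset G × ℕ, ∃ F : Finset G, F.Nonempty ∧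
    ∀ g ∈ x.1, (((F.filter (fun y => g * y ∉ F)).card : ℕ) : ℝ) ≤ (1 / ((x.2 : ℝ) + 1)) * F.card :=
    fun x => h x.1 _ (by positivity)
  choose F hFne hF using h'
  let u : Ultrafilter (Finset G × ℕ) := Ultrafilter.of Filter.atTop
  have hu : (u : Filter (Finset G × ℕ)) ≤ Filter.atTop := Ultrafilter.of_le _
  -- densities
  let d : Set G → (Finset G × ℕ) → ℝ := fun A x =>
    (((F x).filter (fun y => y ∈ A)).card : ℝ) / (F x).card
  have hFpos : ∀ x, (0 : ℝ) < (F x).card := fun x => by exact_mod_cast (hFne x).card_pos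
  have hd0 : ∀ A x, 0 ≤ d A x := fun A x => by positivity
  have hd1 : ∀ A x, d A x ≤ 1 := by
    intro A x
    rw [div_le_one (hFpos x)]
    exact_mod_cast Finset.card_filter_le _ _
  have hlim : ∀ A, ∃ l : ℝ, Filter.Tendsto (d A) u (nhds l) := by
    intro A
    have hmem : Set.Icc (0 : ℝ) 1 ∈ u.map (d A) := by
      rw [Ultrafilter.mem_map]
      exact Filter.univ_mem' (fun x => ⟨hd0 A x, hd1 A x⟩)
    obtain ⟨l, _, hl⟩ := isCompact_Icc.ultrafilter_le_nhds' (u.map (d A)) hmem
    exact ⟨l, hl⟩
  choose μ hμ using hlim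
  refine ⟨μ, ?_, ?_, ?_, ?_⟩
  · intro A
    exact ge_of_tendsto' (hμ A) (hd0 A)
  · have : d Set.univ = fun _ => 1 := by
      funext x
      simp only [d, Set.mem_univ, Finset.filter_true]
      exact div_self (hFpos x).ne'
    have h1 := hμ Set.univ
    rw [this] at h1
    exact tendsto_nhds_unique h1 tendsto_const_nhds
  · intro A B hAB
    have : d (A ∪ B) = fun x => d A x + d B x := by
      funext x
      simp only [d]
      rw [← add_div]
      congr 1
      rw [← Nat.cast_add, ← Finset.card_union_of_disjoint]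
      · congr 2
        ext y
        simp only [Set.mem_union, Finset.mem_filter, Finset.mem_union]
        tauto
      · rw [Finset.disjoint_filter]
        intro y _ hyA hyB
        exact Set.disjoint_left.1 hAB hyA hyB
    have h1 := hμ (A ∪ B)
    rw [this] at h1
    exact tendsto_nhds_unique h1 ((hμ A).add (hμ B))
  · -- invariance
    have hle : ∀ (g : G) (A : Set G), μ ((fun x => g * x) '' A) ≤ μ A := by
      intro g A
      have hev : ∀ᶠ x in (u : Filter (Finset G × ℕ)),
          d ((fun y => g * y) '' A) x ≤ d A x + 1 / ((x.2 : ℝ) + 1) := by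
        have hge : ∀ᶠ x : Finset G × ℕ in Filter.atTop, ({g⁻¹}, 0) ≤ x :=
          Filter.eventually_ge_atTop _
        filter_upwards [hu hge] with x hx
        have hgx : g⁻¹ ∈ x.1 := hx.1 (Finset.mem_singleton_self _)
        have hb := hF x g⁻¹ hgx
        simp only [d]
        have hcard : ((F x).filter (fun y => y ∈ (fun z => g * z) '' A)).card ≤
            ((F x).filter (fun y => y ∈ A)).card +
              ((F x).filter (fun y => g⁻¹ * y ∉ F x)).card := by
          have hsplit : ((F x).filter (fun y => y ∈ (fun z => g * z) '' A)) ⊆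
              (((F x).filter (fun y => y ∈ A)).image (fun z => g * z)) ∪
              ((F x).filter (fun y => g⁻¹ * y ∉ F x)) := by
            intro y hy
            rw [Finset.mem_filter] at hy
            obtain ⟨hy1, z, hz, rfl⟩ := hy
            rw [Finset.mem_union]
            by_cases hzF : z ∈ F x
            · left
              exact Finset.mem_image_of_mem _ (Finset.mem_filter.2 ⟨hzF, hz⟩)
            · right
              rw [Finset.mem_filter]
              refine ⟨hy1, ?_⟩
              simpa using hzF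
          refine (Finset.card_le_card hsplit).trans ((Finset.card_union_le _ _).trans ?_)
          exact Nat.add_le_add_right Finset.card_image_le _
        have hcard' : ((((F x).filter (fun y => y ∈ (fun z => g * z) '' A)).card : ℕ) : ℝ) ≤
            (((F x).filter (fun y => y ∈ A)).card : ℝ) +
              (((F x).filter (fun y => g⁻¹ * y ∉ F x)).card : ℝ) := by exact_mod_cast hcard
        rw [div_add' _ _ _ (hFpos x).ne']
        exact div_le_div_of_nonneg_right (hcard'.trans (by linarith)) (hFpos x).le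
      have hz : Filter.Tendsto (fun x : Finset G × ℕ => 1 / ((x.2 : ℝ) + 1)) u (nhds 0) := by
        have h1 : Filter.Tendsto (fun x : Finset G × ℕ => x.2) Filter.atTop Filter.atTop := by
          rw [← Filter.prod_atTop_atTop_eq]
          exact Filter.tendsto_snd
        exact (tendsto_one_div_add_atTop_nhds_zero_nat.comp h1).mono_left hu
      have h2 := (hμ A).add hz
      rw [add_zero] at h2
      exact le_of_tendsto_of_tendsto (hμ _) h2 hev
    intro g A
    refine le_antisymm (hle g A) ?_
    have h1 := hle g⁻¹ ((fun x => g * x) '' A)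
    have h2 : (fun x => g⁻¹ * x) '' ((fun x => g * x) '' A) = A := by
      rw [Set.image_image]
      simp
    rw [h2] at h1
    exact h1

end Pool.Agent.UDim
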