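import Mathlib
import Pool.Agent.UDim.Defs

set_option autoImplicit false

namespace Pool.Agent.UDim

open MonoidAlgebra

variable {k : Type*} [Ring k] {G : Type*} [Group G]

/-- The right ideal of all elements of the group ring that are invariant under left
multiplication by every element of the set `H`. -/
def inv (k : Type*) [Ring k] (H : Set G) : Submodule (MonoidAlgebra k G)ᵐᵒᵖ (MonoidAlgebra k G) where
  carrier := {φ | ∀ h ∈ H, single h (1 : k) * φ = φ}
  add_mem' := by
    intro a b ha hb h hh
    rw [mul_add, ha h hh, hb h hh]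
  zero_mem' := by
    intro h _
    exact mul_zero _
  smul_mem' := by
    intro c x hx h hh
    change single h (1 : k) * (x * c.unop) = x * c.unop
    rw [← mul_assoc, hx h hh]

theorem mem_inv {H : Set G} {φ : MonoidAlgebra k G} :
    φ ∈ inv k H ↔ ∀ h ∈ H, single h (1 : k) * φ = φ := Iff.rfl

/-- If an element is invariant under an element of infinite order, then it is zero. -/
theorem eq_zero_of_inv {g : G} (hg : ¬ IsOfFinOrder g) {φ : MonoidAlgebra k G}
    (h : single g (1 : k) * φ = φ) : φ = 0 := by
  by_contra hne
  have hc : φ.coeff ≠ 0 := fun h0 => hne (MonoidAlgebra.coeff_eq_zero.1 h0)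
  obtain ⟨x, hx⟩ := Finsupp.ne_iff.1 hc
  have step : ∀ y, φ.coeff (g⁻¹ * y) = φ.coeff y := by
    intro y
    conv_rhs => rw [← h]
    rw [MonoidAlgebra.coeff_single_mul_apply, one_mul]
  have all : ∀ n : ℕ, φ.coeff ((g⁻¹) ^ n * x) = φ.coeff x := by
    intro n
    induction n with
    | zero => simp
    | succ n ih => rw [pow_succ', mul_assoc, step, ih]
  have hinj : Function.Injective (fun n : ℕ => (g⁻¹) ^ n * x) := by
    intro a b hab
    have h1 : (g⁻¹) ^ a = (g⁻¹) ^ b := mul_right_cancel hab
    have h2 : ¬ IsOfFinOrder g⁻¹ := fun hh => hg (isOfFinOrder_inv_iff.1 hh)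
    exact (injective_pow_iff_not_isOfFinOrder.2 h2) h1
  have hmem : ∀ n : ℕ, (g⁻¹) ^ n * x ∈ φ.coeff.support := by
    intro n
    rw [Finsupp.mem_support_iff, all n]
    exact hx
  exact Set.infinite_of_injective_forall_mem hinj hmem φ.coeff.support.finite_toSet

/-- For a finite subgroup `H`, the sum of its elements is invariant, so the right ideal of
invariants is nonzero. -/
theorem inv_ne_bot [Nontrivial k] (H : Subgroup G) [Finite H] : inv k (H : Set G) ≠ ⊥ := by
  classical
  have := Fintype.ofFinite H
  rw [Submodule.ne_bot_iff]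
  refine ⟨∑ h : H, single (h : G) (1 : k), ?_, ?_⟩
  · intro g hg
    rw [Finset.mul_sum]
    have : ∀ h : H, single g (1 : k) * single (h : G) (1 : k)
        = single (((⟨g, hg⟩ : H) * h : H) : G) (1 : k) := by
      intro h
      rw [MonoidAlgebra.single_mul_single, one_mul]
      rfl
    simp_rw [this]
    exact Fintype.sum_equiv (Equiv.mulLeft (⟨g, hg⟩ : H)) _ _ (fun _ => rfl)
  · intro h0
    have h1 := congrArg (fun φ : MonoidAlgebra k G => φ.coeff 1) h0
    simp only [MonoidAlgebra.coeff_sum, MonoidAlgebra.coeff_single, Finsupp.coe_finsetSum,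
      Finset.sum_apply, MonoidAlgebra.coeff_zero, Finsupp.coe_zero, Pi.zero_apply] at h1
    rw [Finset.sum_eq_single (1 : H)] at h1
    · simp at h1
    · intro b _ hb
      rw [Finsupp.single_apply, if_neg]
      intro hb1
      exact hb (Subtype.ext hb1)
    · simp

/-- Criterion for infinite uniform dimension. -/
theorem udim_eq_top [Nontrivial k] (H : ℕ → Subgroup G) (hfin : ∀ n, Finite (H n))
    (a b : ℕ → G) (ha : ∀ n, a n ∈ H n) (hb : ∀ n m, n < m → b n ∈ H m)
    (hab : ∀ n, ¬ IsOfFinOrder ((a n)⁻¹ * b n)) :
    rightUDim (MonoidAlgebra k G) = ⊤ := by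
  classical
  have hindep : iSupIndep (fun n => inv k (H n : Set G)) := by
    rw [iSupIndep_iff_finsetSum_eq_zero_imp_eq_zero]
    intro s v hv hsum
    have key : ∀ i, i ∈ s → v i = 0 := by
      intro i
      induction i using Nat.strong_induction_on with
      | _ i ih =>
        intro hi
        have hsplit : v i + ∑ j ∈ s.erase i, v j = 0 := by
          rw [Finset.add_sum_erase s v hi]
          exact hsum
        -- each remaining term is invariant under `b i`
        have hterm : ∀ j ∈ s.erase i, single (b i) (1 : k) * v j = v j := by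
          intro j hj
          rw [Finset.mem_erase] at hj
          rcases lt_or_gt_of_ne hj.1 with hlt | hgt
          · rw [ih j hlt hj.2, mul_zero]
          · exact hv j hj.2 (b i) (hb i j hgt)
        have hsumb : single (b i) (1 : k) * (∑ j ∈ s.erase i, v j) = ∑ j ∈ s.erase i, v j := by
          rw [Finset.mul_sum]
          exact Finset.sum_congr rfl hterm
        have hvi : v i = - ∑ j ∈ s.erase i, v j := eq_neg_of_add_eq_zero_left hsplit
        have hbi : single (b i) (1 : k) * v i = v i := by
          rw [hvi, mul_neg, hsumb]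
        have hai : single (a i) (1 : k) * v i = v i := hv i hi (a i) (ha i)
        have hainv : single (a i)⁻¹ (1 : k) * v i = v i := by
          conv_lhs => rw [← hai]
          rw [← mul_assoc, MonoidAlgebra.single_mul_single, inv_mul_cancel, one_mul,
            ← MonoidAlgebra.one_def, one_mul]
        refine eq_zero_of_inv (hab i) ?_
        have : single ((a i)⁻¹ * b i) (1 : k) = single (a i)⁻¹ (1 : k) * single (b i) (1 : k) := by
          rw [MonoidAlgebra.single_mul_single, one_mul]
        rw [this, mul_assoc, hbi, hainv]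
    exact key
  have hle : ∀ n : ℕ, (n : ℕ∞) ≤ rightUDim (MonoidAlgebra k G) := by
    intro n
    unfold rightUDim
    refine le_iSup_of_le n (le_iSup_of_le ?_ le_rfl)
    refine ⟨fun i : Fin n => inv k (H i : Set G), fun i => ?_, ?_⟩
    · have := hfin i
      exact inv_ne_bot (H i)
    · exact hindep.comp Fin.val_injective
  exact ENat.eq_top_iff_forall_ge.2 hle

end Pool.Agent.UDim
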