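import Mathlib
import Pool.Agent.UDim.Defs
import Pool.Agent.UDim.Invariants
import Pool.Agent.UDim.Folner

set_option autoImplicit false

namespace Pool.Agent.UDim

/-- The action of a group `L` on finitely supported functions `L → A` by left translation. -/
noncomputable def wrAct (A L : Type*) [AddCommGroup A] [Group L] :
    L →* MulAut (Multiplicative (L →₀ A)) where
  toFun l := AddEquiv.toMultiplicative (Finsupp.domCongr (Equiv.mulLeft l))
  map_one' := by
    ext v x
    change (Multiplicative.toAdd v) ((1 : L)⁻¹ * x) = (Multiplicative.toAdd v) x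
    rw [inv_one, one_mul]
  map_mul' a b := by
    ext v x
    change (Multiplicative.toAdd v) ((a * b)⁻¹ * x) = (Multiplicative.toAdd v) (b⁻¹ * (a⁻¹ * x))
    rw [mul_inv_rev, mul_assoc]

/-- The restricted wreath product `A ≀ L`. -/
abbrev Wr (A L : Type*) [AddCommGroup A] [Group L] : Type _ :=
  SemidirectProduct (Multiplicative (L →₀ A)) L (wrAct A L)

section
variable {A L : Type*} [AddCommGroup A] [Group L]

theorem wrAct_apply (l : L) (v : L →₀ A) (x : L) :
    (Multiplicative.toAdd (wrAct A L l (Multiplicative.ofAdd v))) x = v (l⁻¹ * x) := rfl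

/-- The embedding of the base. -/
noncomputable def bs (v : L →₀ A) : Wr A L := SemidirectProduct.inl (Multiplicative.ofAdd v)

/-- The embedding of the top group. -/
noncomputable def tp (l : L) : Wr A L := SemidirectProduct.inr l

/-- Left translation of functions. -/
noncomputable def tr (l : L) (v : L →₀ A) : L →₀ A :=
  Multiplicative.toAdd (wrAct A L l (Multiplicative.ofAdd v))

theorem tr_apply (l : L) (v : L →₀ A) (x : L) : tr l v x = v (l⁻¹ * x) := rfl

theorem tr_single (l x : L) (a : A) : tr l (Finsupp.single x a) = Finsupp.single (l * x) a := by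
  classical
  ext y
  rw [tr_apply, Finsupp.single_apply, Finsupp.single_apply]
  congr 1
  rw [eq_iff_iff]
  constructor
  · intro h; rw [h]; group
  · intro h; rw [← h]; group

theorem bs_add (v w : L →₀ A) : bs (v + w) = bs v * bs w := by
  rw [bs, ofAdd_add, map_mul]; rfl

theorem bs_zero : bs (0 : L →₀ A) = 1 := by
  rw [bs, ofAdd_zero, map_one]

theorem bs_neg (v : L →₀ A) : bs (-v) = (bs v)⁻¹ := by
  rw [bs, ofAdd_neg, map_inv]; rfl

theorem bs_inj {v w : L →₀ A} : bs v = bs w ↔ v = w := by
  rw [bs, bs, SemidirectProduct.inl_inj]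
  exact Multiplicative.ofAdd.injective.eq_iff

theorem tp_mul (a b : L) : (tp (a * b) : Wr A L) = tp a * tp b := map_mul _ _ _

theorem tp_inv (a : L) : (tp a⁻¹ : Wr A L) = (tp a)⁻¹ := map_inv _ _

theorem tp_one : (tp 1 : Wr A L) = 1 := map_one _

theorem bs_tr (l : L) (v : L →₀ A) : bs (tr l v) = tp l * bs v * (tp l)⁻¹ := by
  rw [bs, tr, ofAdd_toAdd, SemidirectProduct.inl_aut, map_inv]; rfl

theorem tp_mul_bs (l : L) (v : L →₀ A) : tp l * bs v = bs (tr l v) * tp l := by
  rw [bs_tr]; group

theorem bs_mul_tp_surj (g : Wr A L) : ∃ v l, g = bs v * tp l :=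
  ⟨Multiplicative.toAdd g.left, g.right, (SemidirectProduct.inl_left_mul_inr_right g).symm⟩

theorem bs_pow (v : L →₀ A) (n : ℕ) : (bs v) ^ n = bs (n • v) := by
  rw [bs, bs, ofAdd_nsmul, map_pow]

/-- Følner condition for wreath products. -/
theorem hasFolner_wr (hL : HasFolner L) : HasFolner (Wr A L) := by
  refine hasFolner_ext (SemidirectProduct.inl : Multiplicative (L →₀ A) →* Wr A L)
    (SemidirectProduct.rightHom) SemidirectProduct.inl_injective
    SemidirectProduct.rightHom_surjective ?_ ?_ (hasFolner_comm _) hL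
  · intro g hg
    have : g ∈ (SemidirectProduct.rightHom : Wr A L →* L).ker := hg
    rw [← SemidirectProduct.range_inl_eq_ker_rightHom] at this
    exact this
  · intro n
    exact SemidirectProduct.rightHom_inl n

/-- Solvability of wreath products. -/
theorem isSolvable_wr [Group.IsSolvable L] : Group.IsSolvable (Wr A L) := by
  refine Group.isSolvable_of_ker_le_range (SemidirectProduct.inl : Multiplicative (L →₀ A) →* Wr A L)
    (SemidirectProduct.rightHom) ?_
  rw [SemidirectProduct.range_inl_eq_ker_rightHom]

/-- Finite generation of wreath products, when the base group is cyclic. -/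
theorem fg_wr [hL : Group.FG L] (a : A) (ha : ∀ x : A, ∃ n : ℤ, x = n • a) : Group.FG (Wr A L) := by
  classical
  obtain ⟨S, hS⟩ := (Group.fg_def.1 hL)
  rw [Group.fg_def]
  refine ⟨insert (bs (Finsupp.single 1 a)) (S.image tp), ?_⟩
  set H := Subgroup.closure ((insert (bs (Finsupp.single 1 a)) (S.image tp) : Finset (Wr A L)) :
    Set (Wr A L)) with hH
  have htp : ∀ l : L, (tp l : Wr A L) ∈ H := by
    intro l
    have hl : l ∈ Subgroup.closure (S : Set L) := by rw [hS]; trivial
    have hle : Subgroup.closure (S : Set L) ≤ H.comap (SemidirectProduct.inr : L →* Wr A L) := by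
      rw [Subgroup.closure_le]
      intro s hs
      refine Subgroup.subset_closure ?_
      rw [Finset.coe_insert, Finset.coe_image]
      exact Set.mem_insert_of_mem _ ⟨s, hs, rfl⟩
    exact hle hl
  have hb0 : (bs (Finsupp.single 1 a) : Wr A L) ∈ H := by
    refine Subgroup.subset_closure ?_
    rw [Finset.coe_insert]
    exact Set.mem_insert _ _
  have hb1 : ∀ (l : L) (x : A), (bs (Finsupp.single l x) : Wr A L) ∈ H := by
    intro l x
    obtain ⟨n, rfl⟩ := ha x
    have h1 : (bs (Finsupp.single l a) : Wr A L) ∈ H := by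
      have h2 : (Finsupp.single l a : L →₀ A) = tr l (Finsupp.single 1 a) := by
        rw [tr_single, mul_one]
      rw [h2, bs_tr]
      exact H.mul_mem (H.mul_mem (htp l) hb0) (H.inv_mem (htp l))
    have h3 : (bs (Finsupp.single l (n • a)) : Wr A L) = (bs (Finsupp.single l a)) ^ n := by
      rw [bs, bs, ← map_zpow, ← ofAdd_zsmul]
      congr 2
      ext y
      simp [Finsupp.single_apply]
    rw [h3]
    exact H.zpow_mem h1 n
  have hb : ∀ v : L →₀ A, (bs v : Wr A L) ∈ H := by
    intro v
    induction v using Finsupp.induction_linear with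
    | zero => rw [bs_zero]; exact H.one_mem
    | add f g hf hg => rw [bs_add]; exact H.mul_mem hf hg
    | single l x => exact hb1 l x
  rw [eq_top_iff]
  intro g _
  obtain ⟨v, l, rfl⟩ := bs_mul_tp_surj g
  exact H.mul_mem (hb v) (htp l)

end

section udim

variable {L : Type*} [Group L]

/-- The indicator function of a finite subgroup. -/
noncomputable def ind (P : Subgroup L) [Finite P] : L →₀ ℤ :=
  open scoped Classical in
  Finsupp.onFinset (Set.toFinite (P : Set L)).toFinset (fun x => if x ∈ P then 1 else 0) (by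
    intro x hx
    rw [Set.Finite.mem_toFinset]
    by_contra h
    exact hx (if_neg h))

open scoped Classical in
theorem ind_apply (P : Subgroup L) [Finite P] (x : L) : ind P x = if x ∈ P then 1 else 0 := rfl

theorem tr_ind (P : Subgroup L) [Finite P] {l : L} (hl : l ∈ P) : tr l (ind P) = ind P := by
  classical
  ext x
  rw [tr_apply, ind_apply, ind_apply]
  congr 1
  rw [eq_iff_iff]
  constructor
  · intro h
    have := P.mul_mem hl h
    simpa using this
  · intro h
    exact P.mul_mem (P.inv_mem hl) h

/-- If a group contains a strictly increasing sequence of finite subgroups, then the group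
algebra of `ℤ ≀ L` has infinite uniform dimension. -/
theorem udim_wr (P : ℕ → Subgroup L) (hfin : ∀ n, Finite (P n)) (hmono : Monotone P)
    (e : ℕ → L) (he : ∀ n, e n ∈ P (n + 1)) (hne : ∀ n, e n ∉ P n)
    (k : Type*) [Ring k] [Nontrivial k] :
    rightUDim (MonoidAlgebra k (Wr ℤ L)) = ⊤ := by
  classical
  let y : ℕ → (L →₀ ℤ) := fun n => ∑ i ∈ Finset.range n, ind (P i)
  have hy : ∀ n, y (n + 1) = y n + ind (P n) := fun n => Finset.sum_range_succ _ _
  -- conjugated subgroups
  let c : ℕ → (L →* Wr ℤ L) := fun n =>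
    ((MulAut.conj (bs (y n))).toMonoidHom).comp (SemidirectProduct.inr : L →* Wr ℤ L)
  have hc : ∀ n l, c n l = bs (y n) * tp l * (bs (y n))⁻¹ := fun n l => rfl
  -- key: for m > n, conjugating e n is independent of m
  have hstab : ∀ n m, n < m → c m (e n) = c (n + 1) (e n) := by
    intro n m hnm
    induction m, hnm using Nat.le_induction with
    | base => rfl
    | succ m hm ih =>
      rw [← ih, hc, hc, hy, bs_add]
      have hem : e n ∈ P m := hmono hm (he n)
      have h1 : (tp (e n) : Wr ℤ L) * bs (ind (P m)) = bs (ind (P m)) * tp (e n) := by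
        rw [tp_mul_bs, tr_ind _ hem]
      have h2 : bs (ind (P m)) * (tp (e n) : Wr ℤ L) * (bs (ind (P m)))⁻¹ = tp (e n) := by
        rw [← h1]; group
      calc bs (y m) * bs (ind (P m)) * tp (e n) * (bs (y m) * bs (ind (P m)))⁻¹
          = bs (y m) * (bs (ind (P m)) * tp (e n) * (bs (ind (P m)))⁻¹) * (bs (y m))⁻¹ := by group
        _ = _ := by rw [h2]
  refine udim_eq_top (fun n => (P (n + 1)).map (c n)) ?_ (fun n => c n (e n))
    (fun n => c (n + 1) (e n)) ?_ ?_ ?_
  · intro n
    have := hfin (n + 1)
    have hs : (((P (n + 1)).map (c n) : Subgroup (Wr ℤ L)) : Set (Wr ℤ L)).Finite := by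
      rw [Subgroup.coe_map]
      exact (Set.toFinite _).image _
    exact hs.to_subtype
  · intro n
    exact Subgroup.mem_map_of_mem _ (he n)
  · intro n m hnm
    rw [← hstab n m hnm]
    exact Subgroup.mem_map_of_mem _ (hmono (by omega) (he n))
  · intro n hfo
    -- the commutator is a nontrivial element of the torsion-free base
    have h1 : (c n (e n))⁻¹ * c (n + 1) (e n) =
        bs (y n) * bs (tr (e n)⁻¹ (ind (P n)) - ind (P n)) * (bs (y n))⁻¹ := by
      rw [hc, hc, hy, bs_add, sub_eq_add_neg, bs_add, bs_neg, bs_tr, tp_inv]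
      group
    rw [h1] at hfo
    obtain ⟨m, hm, hpow⟩ := isOfFinOrder_iff_pow_eq_one.1 hfo
    rw [conj_pow, bs_pow] at hpow
    have h2 : (bs (m • (tr (e n)⁻¹ (ind (P n)) - ind (P n))) : Wr ℤ L) = bs 0 := by
      rw [bs_zero]
      have := congrArg (fun g => (bs (y n))⁻¹ * g * bs (y n)) hpow
      simpa [mul_assoc] using this
    rw [bs_inj] at h2
    have h3 := DFunLike.congr_fun h2 1
    simp only [Finsupp.coe_smul, Finsupp.coe_sub, Pi.smul_apply, Pi.sub_apply, Finsupp.coe_zero,
      Pi.zero_apply] at h3
    rw [tr_apply, ind_apply, ind_apply, if_neg, if_pos (P n).one_mem] at h3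
    · simp at h3
      omega
    · intro h
      apply hne n
      simpa using h

end udim

end Pool.Agent.UDim
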