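import Mathlib
import Pool.Agent.UDim.Wreath

set_option autoImplicit false

namespace Pool.Agent.UDim

/-- The lamplighter-type group `ℤ/p ≀ ℤ`. -/
abbrev Lamp (p : ℕ) : Type := Wr (ZMod p) (Multiplicative ℤ)

/-- The example group `ℤ ≀ (ℤ/p ≀ ℤ)`. -/
abbrev Ex (p : ℕ) : Type := Wr ℤ (Lamp p)

theorem hasFolner_ex (p : ℕ) : HasFolner (Ex p) :=
  hasFolner_wr (hasFolner_wr (hasFolner_comm _))

theorem isSolvable_ex (p : ℕ) : Group.IsSolvable (Ex p) := by
  have : Group.IsSolvable (Lamp p) := isSolvable_wr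
  exact isSolvable_wr

theorem fg_ex (p : ℕ) : Group.FG (Ex p) := by
  have h0 : Group.FG (Multiplicative ℤ) := inferInstance
  have : Group.FG (Lamp p) := fg_wr (1 : ZMod p) (fun x => ⟨x.cast, by simp⟩)
  exact fg_wr (1 : ℤ) (fun x => ⟨x, by simp⟩)

section
variable (p : ℕ) [hp : Fact p.Prime]

/-- Functions on `ℤ` supported in `{0, …, n-1}`. -/
def fin (n : ℕ) : Set (Multiplicative ℤ) := (fun i : ℕ => Multiplicative.ofAdd (i : ℤ)) '' {i | i < n}

/-- A chain of finite subgroups. -/
noncomputable def chain (n : ℕ) : Subgroup (Lamp p) :=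
  (AddSubgroup.toSubgroup (Finsupp.supported (ZMod p) (ZMod p) (fin n)).toAddSubgroup).map
    (SemidirectProduct.inl : Multiplicative (Multiplicative ℤ →₀ ZMod p) →* Lamp p)

theorem bs_mem_chain (n : ℕ) (v : Multiplicative ℤ →₀ ZMod p) :
    (bs v : Lamp p) ∈ chain p n ↔ (v.support : Set (Multiplicative ℤ)) ⊆ fin n := by
  constructor
  · rintro ⟨w, hw, hwv⟩
    have : w = Multiplicative.ofAdd v := SemidirectProduct.inl_injective hwv
    subst this
    exact (Finsupp.mem_supported (ZMod p) _).1 hw
  · intro h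
    exact ⟨Multiplicative.ofAdd v, (Finsupp.mem_supported (ZMod p) _).2 h, rfl⟩

theorem finite_chain (n : ℕ) : Finite (chain p n) := by
  have h1 : (fin n).Finite := (Set.finite_lt_nat n).image _
  have h1' : Finite (fin n) := h1.to_subtype
  have h2 : Finite (fin n →₀ ZMod p) := Finite.of_injective _ DFunLike.coe_injective
  have h3 : Finite (Finsupp.supported (ZMod p) (ZMod p) (fin n)) :=
    Finite.of_equiv _ (Finsupp.supportedEquivFinsupp (R := ZMod p) (M := ZMod p) (fin n)).symm.toEquiv
  have h4 : ((chain p n : Subgroup (Lamp p)) : Set (Lamp p)).Finite := by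
    have h5 : ((Finsupp.supported (ZMod p) (ZMod p) (fin n) :
      Submodule (ZMod p) (Multiplicative ℤ →₀ ZMod p)) : Set (Multiplicative ℤ →₀ ZMod p)).Finite :=
      Set.toFinite _
    refine (h5.image bs).subset ?_
    rintro _ ⟨w, hw, rfl⟩
    exact ⟨Multiplicative.toAdd w, hw, rfl⟩
  exact h4.to_subtype

theorem udim_ex (k : Type*) [Ring k] [Nontrivial k] : rightUDim (MonoidAlgebra k (Ex p)) = ⊤ := by
  refine udim_wr (L := Lamp p) (chain p) (finite_chain p) ?_
    (fun n => bs (Finsupp.single (Multiplicative.ofAdd (n : ℤ)) 1)) ?_ ?_ k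
  · intro n m hnm
    refine Subgroup.map_mono ?_
    intro v hv
    refine (Finsupp.mem_supported (ZMod p) _).2 (((Finsupp.mem_supported (ZMod p) _).1 hv).trans ?_)
    exact Set.image_mono (fun i hi => lt_of_lt_of_le hi hnm)
  · intro n
    rw [bs_mem_chain]
    refine (Finset.coe_subset.2 Finsupp.support_single_subset).trans ?_
    rw [Finset.coe_singleton, Set.singleton_subset_iff]
    exact ⟨n, Nat.lt_succ_self n, rfl⟩
  · intro n h
    rw [bs_mem_chain] at h
    have h1 : Multiplicative.ofAdd (n : ℤ) ∈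
        ((Finsupp.single (Multiplicative.ofAdd (n : ℤ)) (1 : ZMod p)).support :
          Set (Multiplicative ℤ)) := by
      rw [Finset.mem_coe, Finsupp.mem_support_iff, Finsupp.single_eq_same]
      exact one_ne_zero
    obtain ⟨i, hi, hin⟩ := h h1
    have h2 : (i : ℤ) = n := Multiplicative.ofAdd.injective hin
    have h3 : i = n := by exact_mod_cast h2
    subst h3
    exact lt_irrefl i hi

omit hp in
/-- Every element of finite order of the example group has order dividing `p`. -/
theorem pow_eq_one_of_finOrder (g : Ex p) (hg : IsOfFinOrder g) : g ^ p = 1 := by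
  -- image in the lamplighter group, and in `ℤ`
  have h1 : IsOfFinOrder (SemidirectProduct.rightHom g : Lamp p) := MonoidHom.isOfFinOrder _ hg
  have h2 : IsOfFinOrder (SemidirectProduct.rightHom (SemidirectProduct.rightHom g : Lamp p) :
    Multiplicative ℤ) := MonoidHom.isOfFinOrder _ h1
  have h3 : (SemidirectProduct.rightHom (SemidirectProduct.rightHom g : Lamp p) :
    Multiplicative ℤ) = 1 := by
    obtain ⟨m, hm, hpow⟩ := isOfFinOrder_iff_pow_eq_one.1 h2
    have := congrArg Multiplicative.toAdd hpow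
    rw [toAdd_pow, toAdd_one, nsmul_eq_mul] at this
    have hm' : (m : ℤ) ≠ 0 := by exact_mod_cast hm.ne'
    have h4 := (mul_eq_zero.1 this).resolve_left hm'
    exact Multiplicative.toAdd.injective h4
  have h4 : (SemidirectProduct.rightHom g : Lamp p) ^ p = 1 := by
    have : (SemidirectProduct.rightHom g : Lamp p) ∈
      (SemidirectProduct.rightHom : Lamp p →* Multiplicative ℤ).ker := h3
    rw [← SemidirectProduct.range_inl_eq_ker_rightHom] at this
    obtain ⟨v, hv⟩ := this
    rw [← hv, ← map_pow]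
    have h5 : v ^ p = 1 := by
      apply Multiplicative.toAdd.injective
      rw [toAdd_pow, toAdd_one]
      ext x
      simp
    rw [h5, map_one]
  have h5 : g ^ p ∈ (SemidirectProduct.rightHom : Ex p →* Lamp p).ker := by
    rw [MonoidHom.mem_ker, map_pow]
    exact h4
  rw [← SemidirectProduct.range_inl_eq_ker_rightHom] at h5
  obtain ⟨v, hv⟩ := h5
  have h6 : IsOfFinOrder (g ^ p) := hg.pow
  rw [← hv] at h6 ⊢
  obtain ⟨m, hm, hpow⟩ := isOfFinOrder_iff_pow_eq_one.1 h6
  rw [← map_pow] at hpow
  have h7 : v ^ m = 1 := by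
    apply SemidirectProduct.inl_injective (φ := wrAct ℤ (Lamp p))
    rw [hpow, map_one]
  have h8 := congrArg Multiplicative.toAdd h7
  rw [toAdd_pow, toAdd_one] at h8
  have h9 : Multiplicative.toAdd v = 0 := by
    ext x
    have := DFunLike.congr_fun h8 x
    simp only [Finsupp.coe_smul, Pi.smul_apply, Finsupp.coe_zero, Pi.zero_apply, nsmul_eq_mul] at this
    have hm' : (m : ℤ) ≠ 0 := by exact_mod_cast hm.ne'
    simpa using (mul_eq_zero.1 this).resolve_left hm'
  have h10 : v = 1 := Multiplicative.toAdd.injective h9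
  rw [h10, map_one]

/-- If all elements of finite order of a group have order dividing `p`, then finite subgroups
of order prime to `p` are trivial. -/
theorem card_of_coprime_aux {G : Type*} [Group G] (hG : ∀ g : G, IsOfFinOrder g → g ^ p = 1)
    (F : Subgroup G) (hF : Finite F) (hc : ¬ p ∣ Nat.card F) : Nat.card F = 1 := by
  have : F = ⊥ := by
    rw [Subgroup.eq_bot_iff_forall]
    intro g hg
    have h1 : IsOfFinOrder (⟨g, hg⟩ : F) := isOfFinOrder_of_finite _
    have h2 : IsOfFinOrder g := MonoidHom.isOfFinOrder F.subtype h1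
    have h3 := hG g h2
    have h4 : orderOf g ∣ p := orderOf_dvd_of_pow_eq_one h3
    have h5 : orderOf g ∣ Nat.card F := by
      have h7 : orderOf (⟨g, hg⟩ : F) = orderOf g := Subgroup.orderOf_mk g hg
      rw [← h7]
      exact orderOf_dvd_natCard _
    rcases (Nat.dvd_prime hp.out).1 h4 with h6 | h6
    · exact orderOf_eq_one_iff.1 h6
    · rw [h6] at h5
      exact absurd h5 hc
  rw [this]
  simp

/-- Finite subgroups of order prime to `p` are trivial. -/
theorem card_of_coprime (F : Subgroup (Ex p)) (hF : Finite F) (hc : ¬ p ∣ Nat.card F) :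
    Nat.card F = 1 :=
  card_of_coprime_aux p (pow_eq_one_of_finOrder p) F hF hc

end

end Pool.Agent.UDim
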